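import Pool.Agent.H.MP_18f314_lc.A

set_option autoImplicit false

open Set Pool.Agent.H.MP_07c8c2_lc Pool.Agent.H.MP_18f314_lc

namespace Pool.Agent.Results.MP_e0f6ac_lc.No

section
variable {P X : Type} [Preorder P] [TopologicalSpace X]

/-- k-covers -/
def KC (U : Set (Set X)) : Prop := (∀ A ∈ U, IsOpen A) ∧ ∀ K, IsCompact K → ∃ A ∈ U, K ⊆ A

/-- II has a winning strategy in the k-Rothberger game -/
def Wins1 (X : Type) [TopologicalSpace X] : Prop :=
  ∃ σ : List (Set (Set X)) → Set X, ∀ f : ℕ → Set (Set X),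
    (∀ n, (∀ k ≤ n, KC (f k)) → σ (hist f n) ∈ f n) ∧
      ((∀ n, KC (f n)) → KC (range fun n => σ (hist f n)))

/-- II has a winning strategy in the k-Menger game -/
def WinsF (X : Type) [TopologicalSpace X] : Prop :=
  ∃ σ : List (Set (Set X)) → Set (Set X), ∀ f : ℕ → Set (Set X),
    (∀ n, (∀ k ≤ n, KC (f k)) → (σ (hist f n)).Finite ∧ σ (hist f n) ⊆ f n) ∧
      ((∀ n, KC (f n)) → KC (⋃ n, σ (hist f n)))

/-- p forces an inclusion -/
def Sub (K A : N1 X P) (p : P) : Prop := ∀ x, Im (Mem x K) (Mem x A) p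

/-- p forces that K names a compact set -/
def Cpt (K : N1 X P) (p : P) : Prop := ∀ V : N2 X P,
  Im (fun q => Ops V q ∧ ∀ x, Im (Mem x K) (Ex fun A r => Mem2 A V r ∧ Mem x A r) q)
    (Ex fun (l : List (N1 X P)) r => (∀ A ∈ l, Mem2 A V r) ∧
      ∀ x, Im (Mem x K) (Ex fun A s => A ∈ l ∧ Mem x A s) r) p

/-- p forces that U names a k-cover -/
def KCov (U : N2 X P) (p : P) : Prop :=
  Ops U p ∧ ∀ K, Im (Cpt K) (Ex fun A r => Mem2 A U r ∧ Sub K A r) p

/-- p forces that the strategy with forcing relation R is winning for II in the k-Menger game -/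
def FWinsF (R : List (N2 X P) → List (N1 X P) → P → Prop) (p : P) : Prop :=
  Strat KCov R p ∧ ∀ f : ℕ → N2 X P, ∀ q ≤ p, (∀ n, KCov (f n) q) → ∀ K, Im (Cpt K)
    (Ex fun (y : ℕ × List (N1 X P)) r => R (hist f y.1) y.2 r ∧ ∃ A ∈ y.2, Sub K A r) q

/-- the same for the k-Rothberger game: the answer is a single set -/
def FWins1 (R : List (N2 X P) → N1 X P → P → Prop) (p : P) : Prop :=
  FWinsF (fun l a q => ∃ A, a = [A] ∧ R l A q) p

omit [TopologicalSpace X] in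
lemma ms {x y : X} {q : P} : Mem y {z : X × P | z.1 = x} q ↔ y = x :=
  ⟨fun h => by obtain ⟨r, -, t, -, e⟩ := h q le_rfl; exact e,
    fun h r _ => ⟨r, le_rfl, r, le_rfl, h⟩⟩

lemma cs (x : X) (p : P) : Cpt {z : X × P | z.1 = x} p := fun V q _ h r a => by
  obtain ⟨s, b, A, c, d⟩ := h.2 x r a (ms.2 rfl) r le_rfl
  exact ⟨s, b, [A], by simpa using c, fun y t e f v g => ⟨v, le_rfl, A, .head _,
    ms.1 f ▸ d.mono (g.trans e)⟩⟩

end

lemma uk (t : List Bool) (p : Co) : KCov (U t) p := ⟨uo t p, fun K q _ h r a => by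
  obtain ⟨s, b, l, c, d⟩ := h (U t) r a ⟨uo t r, fun x v _ _ => (uc t v).2 x⟩ r le_rfl
  obtain ⟨v, e, f⟩ := fl c
  refine ⟨v, e.trans b, _, um t le_rfl, fun x w g i => mu.2 fun j => ?_⟩
  obtain ⟨z, k, A, m, n⟩ := d x w (g.trans e) i w le_rfl
  exact f A m x j z (k.trans g) n⟩

lemma no (p : Co) (R : List (N2 (ℕ → Bool) Co) → List (N1 (ℕ → Bool) Co) → Co → Prop) :
    ¬ FWinsF R p := fun ⟨a, b⟩ => by
  obtain ⟨f, c, x, d⟩ := core uk (fun V p h => ⟨os h, fun K q e k => Ex.reg fun r i => by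
    obtain ⟨s, f, t, g⟩ := h r (i.trans e)
    refine ⟨s, f, fun v j => ?_⟩
    obtain ⟨w, m, A, n, o⟩ := (uk t s).2 K s le_rfl (fun V z y => k V z (y.trans (f.trans i))) v j
    exact ⟨w, m, A, (g A w (m.trans j)).2 n, o⟩⟩) a
  obtain ⟨r, e, y, g, A, i, j⟩ := b f p le_rfl c _ p le_rfl (cs x p) p le_rfl
  exact d _ _ r e g A i (j x r le_rfl (ms.2 rfl))

theorem result : ∃ (P : Type) (_ : Preorder P) (_ : Nonempty P) (X : Type)
    (_ : TopologicalSpace X), Countable P ∧ SP P ∧ T2Space X ∧ Wins1 X ∧ WinsF X ∧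
      (∀ (p : P) (R : List (N2 X P) → N1 X P → P → Prop), ¬ FWins1 R p) ∧
      ∀ (p : P) (R : List (N2 X P) → List (N1 X P) → P → Prop), ¬ FWinsF R p := by
  have k : ∀ U : Set (Set (ℕ → Bool)), KC U → univ ∈ U := fun U h => by
    obtain ⟨A, a, b⟩ := h.2 _ isCompact_univ
    exact univ_subset_iff.1 b ▸ a
  refine ⟨Co, _, inferInstance, ℕ → Bool, _, inferInstance, sp, inferInstance,
    ⟨fun _ => univ, fun f => ⟨fun n h => k _ (h n le_rfl), fun _ => ?_⟩⟩,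
    ⟨fun _ => {univ}, fun f => ⟨fun n h => ⟨finite_singleton _, singleton_subset_iff.2
      (k _ (h n le_rfl))⟩, fun _ => ?_⟩⟩, fun p R => no p _, no⟩ <;> simp [KC]

end Pool.Agent.Results.MP_e0f6ac_lc.No
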